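import Pool.Agent.W2helper5.KA.Stm

/-!
Project KA, piece CONV: convolution powers of the identity on the basis.
-/

set_option autoImplicit false

namespace Pool.Agent.W2helper24.KA

open TensorProduct Pool.Agent.W2helper5.KA

section

variable {k F Γ : Type} [Field k] [Group F] [Group Γ] (D : Dat k F Γ)

lemma P_succ (p : Γ × F) (n : ℕ) : P D p (n + 1) = U D (P D p n) := by
  simp only [P, Function.iterate_succ_apply']

lemma l_T (p : Γ × F) (n : ℕ) : D.l (T D p n) p.2 = (P D p n).2 := by
  induction n with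
  | zero => simp [T, P, D.l_one]
  | succ n ih =>
    rw [T, D.l_mul, ih, P_succ]
    rfl

lemma r_P (p : Γ × F) (n : ℕ) : D.r (P D p (n + 1)).1 (P D p (n + 1)).2 = (P D p n).1 := by
  rw [P_succ]
  simp only [U]
  rw [← D.r_mul, inv_mul_cancel, D.r_one]

lemma r_inv (s : Γ) (x : F) : D.r (D.r s x) x⁻¹ = s := by
  rw [← D.r_mul, mul_inv_cancel, D.r_one]

lemma r_inv' (s : Γ) (x : F) : D.r (D.r s x⁻¹) x = s := by
  rw [← D.r_mul, inv_mul_cancel, D.r_one]

lemma r_inj {s t : Γ} {x : F} (h : D.r s x = D.r t x) : s = t := by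
  rw [← r_inv D s x, h, r_inv]

/-- `t ↦ t ◁ x` as a permutation of `Γ` -/
def rEquiv (x : F) : Γ ≃ Γ where
  toFun s := D.r s x
  invFun s := D.r s x⁻¹
  left_inv s := r_inv D s x
  right_inv s := r_inv' D s x

end

theorem CONV : P_CONV := by
  intro k F Γ H _ _ _ _ _ _ _ _ _ D b hb n
  have hconv : ∀ (f : H →ₗ[k] H) (s : Γ) (x : F), conv k H f (b (s, x)) =
      ∑ t : Γ, D.τ x (s * t⁻¹) t • (b (s * t⁻¹, D.l t x) * f (b (t, x))) := by
    intro f s x
    simp only [conv, LinearMap.comp_apply, hb.comul, map_sum, map_smul, TensorProduct.map_tmul,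
      LinearMap.id_apply, LinearMap.mul'_apply]
  induction n with
  | zero =>
    intro s x
    simp only [Function.iterate_zero, id_eq, cun, LinearMap.comp_apply, hb.counit,
      Algebra.linearMap_apply, T, c, P, X, one_smul]
    by_cases hs : s = 1
    · subst hs
      simp only [if_true, map_one]
      rw [hb.one]
      exact (Equiv.sum_comp (rEquiv D x) fun s => b (s, (1 : F))).symm
    · have h1 : ¬ (1 : Γ) = s := fun h => hs h.symm
      simp only [if_neg hs, if_neg h1, map_zero, Finset.sum_const_zero]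
  | succ n ih =>
    intro s x
    rw [Function.iterate_succ_apply', hconv]
    have h1 : ∀ u : Γ, D.τ x (s * u⁻¹) u • (b (s * u⁻¹, D.l u x) *
        ((conv k H)^[n] (cun k H)) (b (u, x))) =
        ∑ t : Γ, if T D (t, x) n = u then D.τ x (s * u⁻¹) u • (b (s * u⁻¹, D.l u x) *
          (c D (t, x) n • b (D.r (P D (t, x) n).1 (P D (t, x) n).2, X D (t, x) n))) else 0 := by
      intro u
      rw [ih, Finset.mul_sum, Finset.smul_sum]
      refine Finset.sum_congr rfl fun t _ => ?_
      split_ifs
      · rfl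
      · rw [mul_zero, smul_zero]
    rw [Finset.sum_congr rfl fun u _ => h1 u, Finset.sum_comm]
    refine Finset.sum_congr rfl fun t _ => ?_
    rw [Finset.sum_ite_eq, if_pos (Finset.mem_univ _)]
    have hl : D.l (T D (t, x) n) x = (P D (t, x) n).2 := l_T D (t, x) n
    rw [hl, mul_smul_comm, hb.mul]
    by_cases hs : T D (t, x) (n + 1) = s
    · rw [if_pos hs]
      have h2 : s * (T D (t, x) n)⁻¹ = (P D (t, x) n).1 := by
        rw [← hs, T, mul_inv_cancel_right]
      rw [h2, if_pos rfl, r_P, c, X, smul_smul, smul_smul]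
      congr 1
      ring
    · rw [if_neg hs, if_neg, smul_zero, smul_zero]
      intro h2
      apply hs
      have h3 := r_inj D h2
      rw [T, ← h3, inv_mul_cancel_right]

end Pool.Agent.W2helper24.KA
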